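import Pool.Agent.RS.StmtsF

set_option autoImplicit false

/-!
# Squad RS (MP_b2b50d_lc), row DOW: the downward recursion (helper67)
-/

namespace Pool.Agent.RS.H67

open MvPolynomial Pool.Agent.RS

theorem dow (hste : SteStmt) (hsto : StoStmt) (hphb : PhbStmt) : DowStmt := by
  classical
  intro D
  obtain ⟨F, G, hG, hst⟩ := hste
  set Rs : ℕ → ℕ := fun i => F^[i] D with hRs
  have hRs1 : ∀ i, Rs (i + 1) = F (Rs i) := fun i => Function.iterate_succ_apply' F i D
  refine ⟨fun i => G (Rs i), Rs, rfl, fun r =>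
    ⟨∑ i ∈ Finset.range (r + 1), (Rs i + Rs i * Rs i), ?_⟩⟩
  intro E _ ι _ _ a0 b0 hno
  have hΔ : ∀ i, i ≤ r → Rs i + Rs i * Rs i ≤
      ∑ i ∈ Finset.range (r + 1), (Rs i + Rs i * Rs i) := fun i hi =>
    Finset.single_le_sum (f := fun i => Rs i + Rs i * Rs i) (fun _ _ => Nat.zero_le _)
      (Finset.mem_range.2 (Nat.lt_succ_of_le hi))
  have key : ∀ n i : ℕ, i + n = r →
      ∀ (j : ℕ → ℕ) (q lc e ρ α β : ℕ → MvPolynomial ℕ E) (Lf : FF E →+ FF E)
      (a b : ι → MvPolynomial ℕ E),
      Stage a0 b0 (fun i => G (Rs i)) (Rs i) i j q lc e ρ α β Lf a b →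
      ∃ (J : Finset ℕ) (H : Finset (MvPolynomial ℕ E)), J.card ≤ r ∧
        (∀ l < i, j l ∈ J) ∧
        (∀ h ∈ H, h ≠ 0 ∧ h.totalDegree ≤ ∑ i ∈ Finset.range (r + 1), (Rs i + Rs i * Rs i)) ∧
        ∀ ζ : ℕ → E, (∀ h ∈ H, eval ζ h ≠ 0) →
          Phi J ζ (numer a b) ≠ 0 := by
    intro n
    induction n with
    | zero =>
      intro i hi j q lc e ρ α β Lf a b hS
      have hir : i = r := by omega
      subst hir
      exact absurd hS (hno j q lc e ρ α β Lf a b)
    | succ n ih =>
      intro i hi j q lc e ρ α β Lf a b hS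
      have hir : i ≤ r := by omega
      obtain ⟨-, -, he0, heR, -, -, -, hab, hnum⟩ := id hS
      by_cases hp : ∃ p, Prime p ∧ ¬ p ∣ e i ∧ ¬ NoPole p (total a b)
      · obtain ⟨j', q', lc', e', ρ', α', β', Lf', a', b', hj, hS', hT⟩ :=
          hst E ι a0 b0 (fun i => G (Rs i)) (Rs i) i j q lc e ρ α β Lf a b le_rfl hS hp
        rw [← hRs1] at hS'
        have hb' := hS'.2.2.2.2.2.2.2.1
        obtain ⟨J, H, hJ1, hJ2, hH1, hH2⟩ := ih (i + 1) (by omega) j' q' lc' e' ρ' α' β' Lf'
          a' b' hS'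
        refine ⟨J, H ∪ Finset.univ.image b ∪ Finset.univ.image b', hJ1, ?_, ?_, ?_⟩
        · intro l hl
          rw [← hj l hl]
          exact hJ2 l (by omega)
        · intro h hh
          rcases Finset.mem_union.1 hh with hh | hh
          · rcases Finset.mem_union.1 hh with hh | hh
            · exact hH1 h hh
            · obtain ⟨t, -, rfl⟩ := Finset.mem_image.1 hh
              obtain ⟨-, -, -, h1, -, h2⟩ := hab t
              exact ⟨h1, h2.trans ((Nat.le_add_right _ _).trans (hΔ i hir))⟩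
          · obtain ⟨t, -, rfl⟩ := Finset.mem_image.1 hh
            obtain ⟨-, -, -, h1, -, h2⟩ := hb' t
            exact ⟨h1, h2.trans ((Nat.le_add_right _ _).trans (hΔ (i + 1) (by omega)))⟩
        · intro ζ hζ
          have hP : ∀ f : MvPolynomial ℕ E, eval ζ f ≠ 0 → Phi J ζ f ≠ 0 := by
            intro f hf h0
            apply hf
            rw [← (hphb E J ζ f).1, h0, map_zero]
          refine hT J ζ (hJ2 i (Nat.lt_succ_self i)) (fun t => hP _ (hζ _ ?_))
            (fun t => hP _ (hζ _ ?_)) (hH2 ζ fun h hh => hζ h ?_)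
          · exact Finset.mem_union_left _ (Finset.mem_union_right _
              (Finset.mem_image_of_mem b (Finset.mem_univ t)))
          · exact Finset.mem_union_right _ (Finset.mem_image_of_mem b' (Finset.mem_univ t))
          · exact Finset.mem_union_left _ (Finset.mem_union_left _ hh)
      · push Not at hp
        obtain ⟨H, hH1, hH2⟩ := hsto E ι a b (e i) (Rs i) ((Finset.range i).image j)
          (fun t => (hab t).2.2.2.1) (fun t => ⟨(hab t).2.2.2.2.1, (hab t).2.2.2.2.2⟩) he0 heR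
          hnum hp
        refine ⟨(Finset.range i).image j, H, ?_, ?_, ?_, ?_⟩
        · exact Finset.card_image_le.trans ((Finset.card_range i).le.trans hir)
        · intro l hl
          exact Finset.mem_image_of_mem j (Finset.mem_range.2 hl)
        · intro h hh
          obtain ⟨h1, h2⟩ := hH1 h hh
          exact ⟨h1, h2.trans (hΔ i hir)⟩
        · intro ζ hζ
          exact (hH2 ζ hζ).2
  intro j q lc e ρ α β Lf a b hS
  obtain ⟨J, H, h1, -, h3, h4⟩ := key r 0 (Nat.zero_add r) j q lc e ρ α β Lf a b hS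
  exact ⟨J, H, h1, h3, h4⟩

end Pool.Agent.RS.H67
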