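import Pool.Agent.RS.StmtsT

set_option autoImplicit false

/-!
# Squad RS (MP_b2b50d_lc), row ISO: the abstract theorem in an isomorphic ring (helper67)
-/

namespace Pool.Agent.RS.H67

open MvPolynomial Pool.Agent.RS

section Tr

variable {A B : Type} [CommRing A] [CommRing B] (f : A →+* B) (g : B →+* A)

theorem map_mem (P : Subring B) (hfg : ∀ b, f (g b) = b) (p : Polynomial B)
    (hp : ∀ n, p.coeff n ∈ P) : ∀ n, (p.map g).coeff n ∈ P.comap f := by
  intro n
  rw [Subring.mem_comap, Polynomial.coeff_map, hfg]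
  exact hp n

theorem tower_tr (hfg : ∀ b, f (g b) = b) (hgf : ∀ a, g (f a) = a) (P : ℕ → Subring B)
    (x : ℕ → B) (r : ℕ) (h : Tower P x r) :
    Tower (fun l => (P l).comap f) (fun l => g (x l)) r := by
  obtain ⟨h0, h1⟩ := h
  have hinj : Function.Injective f := Function.LeftInverse.injective hgf
  refine ⟨fun b => ?_, fun l hl => ?_⟩
  · rw [Subring.mem_comap]; exact h0 _
  · obtain ⟨h2, h3, h4, h5⟩ := h1 l hl
    refine ⟨?_, ?_, ?_, ?_⟩
    · intro a ha
      rw [Subring.mem_comap] at ha ⊢
      exact h2 ha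
    · rw [Subring.mem_comap, hfg]; exact h3
    · intro a ha
      rw [Subring.mem_comap] at ha
      obtain ⟨p, hp1, hp2⟩ := h4 _ ha
      refine ⟨p.map g, map_mem f g _ hfg p hp1, ?_⟩
      rw [Polynomial.eval_map, Polynomial.eval₂_at_apply, hp2, hgf]
    · intro p hp1 hp2
      have e1 : (p.map f) = 0 := by
        apply h5
        · intro n
          rw [Polynomial.coeff_map]
          exact hp1 n
        · have e2 : x l = f (g (x l)) := (hfg _).symm
          rw [e2, Polynomial.eval_map, Polynomial.eval₂_at_apply, hp2, map_zero]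
      exact Polynomial.map_injective f hinj (by rw [e1, Polynomial.map_zero])

theorem chain_tr (hfg : ∀ b, f (g b) = b) (P : ℕ → Subring B)
    (x : ℕ → B) (r : ℕ) (q lc e ρ α β : ℕ → B) (h : AChain P x r q lc e ρ α β) :
    AChain (fun l => (P l).comap f) (fun l => g (x l)) r (fun l => g (q l)) (fun l => g (lc l))
      (fun l => g (e l)) (fun l => g (ρ l)) (fun l => g (α l)) (fun l => g (β l)) := by
  obtain ⟨h0, h1⟩ := h
  have hinj : Function.Injective g := Function.LeftInverse.injective hfg
  have h00 : ∀ b : B, b ≠ 0 → g b ≠ 0 := fun b hb h => hb (hinj (by rw [h, map_zero]))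
  refine ⟨?_, fun l hl => ?_⟩
  · beta_reduce
    rw [h0, map_one]
  · obtain ⟨a1, a2, a3, a4, a5, a6, a7, a8, p, hp1, hp2, hp3, hp4⟩ := h1 l hl
    refine ⟨?_, ?_, ?_, ?_, h00 _ a5, ?_, ?_, h00 _ a8, p.map g, map_mem f g _ hfg p hp1,
      ?_, ?_, ?_⟩
    · beta_reduce
      rw [Subring.mem_comap, hfg]; exact a1
    · beta_reduce
      rw [Subring.mem_comap, hfg]; exact a2
    · beta_reduce
      rw [Subring.mem_comap, hfg]; exact a3
    · beta_reduce
      rw [Subring.mem_comap, hfg]; exact a4
    · beta_reduce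
      rw [a6, map_add, map_mul, map_mul]
    · beta_reduce
      rw [a7, map_mul]
    · rw [Polynomial.natDegree_map_eq_of_injective hinj]; exact hp2
    · rw [Polynomial.leadingCoeff_map_of_injective hinj, hp3]
    · rw [Polynomial.eval_map, Polynomial.eval₂_at_apply, hp4]

theorem good_tr (hfg : ∀ b, f (g b) = b) (hgf : ∀ a, g (f a) = a) (P P' : Subring B) (q : B)
    (u : A) (h : Good (P.comap f) (P'.comap f) (g q) u) : Good P P' q (f u) := by
  have hinj : Function.Injective f := Function.LeftInverse.injective hgf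
  obtain ⟨h1, a, ha, b, hb, h2, h3⟩ := h
  rw [Subring.mem_comap] at h1 ha hb h2
  refine ⟨h1, f a, ha, f b, hb, ?_, ?_⟩
  · rw [map_add, map_mul, map_mul, hfg] at h2
    exact h2
  · intro h4
    apply h3
    apply hinj
    rw [map_add, map_mul, map_mul, hfg, h4, map_zero]

theorem inN_tr {K L : Type} [Field K] [Algebra A K] [Field L] [Algebra B L]
    (hfg : ∀ b, f (g b) = b) (hgf : ∀ a, g (f a) = a) (θ : K →+* L)
    (hθ : ∀ a, θ (algebraMap A K a) = algebraMap B L (f a)) (P : ℕ → Subring B) (q : ℕ → B)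
    (r : ℕ) (w : K) (h : InN (fun l => (P l).comap f) (fun l => g (q l)) r w) :
    InN P q r (θ w) := by
  obtain ⟨s, a, u, h1, h2⟩ := h
  refine ⟨s, fun l => f (a l), fun l => f (u l), fun l hl => ?_, ?_⟩
  · exact good_tr f g hfg hgf _ _ _ _ (h1 l hl)
  · rw [h2, map_sum]
    refine Finset.sum_congr rfl fun l _ => ?_
    rw [map_div₀, hθ, hθ, map_mul, map_pow, map_prod]
    simp only [hfg]

end Tr

theorem iso (habs : AbsStmt) : IsoStmt := by
  intro k Y B _ _ _ _ _ hφ b0 hb0
  obtain ⟨φ⟩ := hφ
  set f : MvPolynomial Y k →+* B := (φ : MvPolynomial Y k →+* B) with hf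
  set g : B →+* MvPolynomial Y k := (φ.symm : B →+* MvPolynomial Y k) with hg
  have hf1 : ∀ a, f a = φ a := fun a => rfl
  have hg1 : ∀ b, g b = φ.symm b := fun b => rfl
  have hfg : ∀ b, f (g b) = b := fun b => by rw [hf1, hg1, AlgEquiv.apply_symm_apply]
  have hgf : ∀ a, g (f a) = a := fun a => by rw [hf1, hg1, AlgEquiv.symm_apply_apply]
  have hfi : Function.Injective f := Function.LeftInverse.injective hgf
  have hgi : Function.Injective g := Function.LeftInverse.injective hfg
  have h00 : ∀ b : B, b ≠ 0 → g b ≠ 0 := fun b hb h => hb (hgi (by rw [h, map_zero]))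
  refine ⟨(g b0).vars.card, ?_⟩
  intro r D P x q lc e ρ α β a0 hT hC hq hD0 hD1 hN
  set D' : ℕ → Derivation k (MvPolynomial Y k) (MvPolynomial Y k) := fun l =>
    Derivation.mk' ((φ.symm.toLinearMap.comp (D l : B →ₗ[k] B)).comp φ.toLinearMap)
      (fun a b => by
        simp only [LinearMap.comp_apply, AlgEquiv.toLinearMap_apply, Derivation.coeFn_coe,
          map_mul, Derivation.leibniz, smul_eq_mul, map_add, AlgEquiv.symm_apply_apply])
    with hD'
  have hD'1 : ∀ l a, D' l a = g (D l (f a)) := fun l a => rfl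
  refine habs k Y r D' (fun l => (P l).comap f) (fun l => g (x l)) (fun l => g (q l))
    (fun l => g (lc l)) (fun l => g (e l)) (fun l => g (ρ l)) (fun l => g (α l))
    (fun l => g (β l)) (g a0) (g b0) (g b0).vars (tower_tr f g hfg hgf P x r hT)
    (chain_tr f g hfg P x r q lc e ρ α β hC) (fun l hl => h00 _ (hq l hl)) ?_ ?_ (h00 _ hb0)
    ?_ ?_
  · intro l hl a ha
    rw [hD'1, hD0 l hl _ ha, map_zero]
  · intro l hl m hm
    rw [hD'1, hfg, hD1 l hl m hm]
    split_ifs
    · exact map_one g
    · exact map_zero g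
  · rw [mem_supported]
  · intro hI
    apply hN
    have hinj : Function.Injective ((algebraMap B (FractionRing B)).comp f) :=
      (IsFractionRing.injective B (FractionRing B)).comp hfi
    set θ : FractionRing (MvPolynomial Y k) →+* FractionRing B :=
      IsFractionRing.lift (A := MvPolynomial Y k) (g := (algebraMap B (FractionRing B)).comp f)
        hinj with hθ
    have hθ1 : ∀ a, θ (algebraMap (MvPolynomial Y k) (FractionRing (MvPolynomial Y k)) a) =
        algebraMap B (FractionRing B) (f a) := by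
      intro a
      rw [hθ, IsFractionRing.lift_algebraMap]
      rfl
    have h1 := inN_tr f g hfg hgf θ hθ1 P q r _ hI
    rw [map_div₀, hθ1, hθ1, hfg, hfg] at h1
    exact h1

end Pool.Agent.RS.H67
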